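import Pool.Agent.Work.MP_95d40a_an.Sharp
import Pool.Agent.Work.MP_95d40a_an.CExp
import Pool.Agent.Work.MP_95d40a_an.Asym
import Pool.Agent.Work.MP_95d40a_an.R2.Asy

set_option autoImplicit false

open MeasureTheory
open scoped ENNReal

namespace Pool.Agent.Results.MP_95d40a_an.Resolution

open Pool.Agent.Work.MP_95d40a_an

universe u

section radius

variable {X : Type u} [NormedAddCommGroup X] [NormedSpace ℝ X] {Ω : Type u} [MeasurableSpace Ω]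

/-- The absolute numerical radius `|v|(T) = sup {∫ |x|^{r-1} |Tx| dμ : ‖x‖ = 1}` of an operator on a
space `X` of (classes of) functions; `f x` is the function `x`. -/
noncomputable def absRad (μ : Measure Ω) (f : X → Ω → ℝ) (r : ℝ) (T : X →L[ℝ] X) : ℝ :=
  sSup {s : ℝ | ∃ x : X, ‖x‖ = 1 ∧ s = ∫ ω, ‖f x ω‖ ^ (r - 1) * ‖f (T x) ω‖ ∂μ}

/-- `v(T) ≥ M_r |v|(T)` for every bounded operator `T` on `X`, and, if `X` has dimension at least
two, there is a `T` with `|v|(T) > 0` for which equality holds. -/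
def RadiusInequality (μ : Measure Ω) (f : X → Ω → ℝ) (r : ℝ) : Prop :=
  (∀ T : X →L[ℝ] X, Mp r * absRad μ f r T ≤ numRadius T) ∧
  (2 ≤ Module.rank ℝ X →
    ∃ T : X →L[ℝ] X, 0 < absRad μ f r T ∧ numRadius T = Mp r * absRad μ f r T)

end radius

/-- Real scalars: the numerical index of `L_p(μ)` is `M_p` in dimension two, and lies in
`[κ_p M_p, M_p)` in every dimension at least three. -/
def RealIndex (p : ℝ≥0∞) [Fact (1 ≤ p)] {Ω : Type u} [MeasurableSpace Ω] (μ : Measure Ω) : Prop :=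
  (Module.rank ℝ (Lp ℝ p μ) = 2 → numIndex ℝ (Lp ℝ p μ) = Mp p.toReal) ∧
  (3 ≤ Module.rank ℝ (Lp ℝ p μ) →
    kappa p.toReal * Mp p.toReal ≤ numIndex ℝ (Lp ℝ p μ) ∧ numIndex ℝ (Lp ℝ p μ) < Mp p.toReal)

/-- Real scalars: `v(T) ≥ M_p |v|(T)` for every operator on `L_p(μ)`, and `M_p` is the best constant
in dimension at least two. -/
def RealRadius (p : ℝ≥0∞) [Fact (1 ≤ p)] {Ω : Type u} [MeasurableSpace Ω] (μ : Measure Ω) : Prop :=
  RadiusInequality μ (fun x : Lp ℝ p μ => (x : Ω → ℝ)) p.toReal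

/-- Complex scalars: the numerical index of `L_p(μ)` is strictly smaller than `κ_p`, and at least
`log (1 + R^s) / (R s)` for every `R > 0`, where `s = max p q`. -/
def ComplexIndex (p : ℝ≥0∞) [Fact (1 ≤ p)] {Ω : Type u} [MeasurableSpace Ω] (μ : Measure Ω) : Prop :=
  2 ≤ Module.rank ℂ (Lp ℂ p μ) →
    numIndex ℂ (Lp ℂ p μ) < kappa p.toReal ∧
    ∀ R s : ℝ, 0 < R → s = max p.toReal (p.toReal / (p.toReal - 1)) →
      Real.log (1 + R ^ s) / (R * s) ≤ numIndex ℂ (Lp ℂ p μ)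

/-- `n(L_p(μ)) ≥ (1 - ε) κ_p` for complex scalars and `n(L_p(μ)) ≥ (1 - ε) M_p` for real scalars, if
`p` is close to one, to two or to infinity. -/
def Asymptotics : Prop :=
  ∀ ε : ℝ, 0 < ε → ∃ δ : ℝ, 0 < δ ∧ ∀ (p : ℝ≥0∞) [Fact (1 ≤ p)], 1 < p → p ≠ ∞ → p ≠ 2 →
    (p.toReal < 1 + δ ∨ |p.toReal - 2| < δ ∨ δ⁻¹ < p.toReal) →
    ∀ (Ω : Type u) [MeasurableSpace Ω] (μ : Measure Ω),
      (2 ≤ Module.rank ℂ (Lp ℂ p μ) → (1 - ε) * kappa p.toReal ≤ numIndex ℂ (Lp ℂ p μ)) ∧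
      (2 ≤ Module.rank ℝ (Lp ℝ p μ) → (1 - ε) * Mp p.toReal ≤ numIndex ℝ (Lp ℝ p μ))

lemma nontrivial_of_rank {𝕜 X : Type*} [RCLike 𝕜] [NormedAddCommGroup X] [NormedSpace 𝕜 X]
    (h : 2 ≤ Module.rank 𝕜 X) : Nontrivial X := by
  by_contra hn
  rw [not_nontrivial_iff_subsingleton] at hn
  have h0 : Module.rank 𝕜 X = 0 := rank_zero_iff.2 hn
  rw [h0] at h
  exact absurd h (by norm_num)

theorem result :
    (∀ (p : ℝ≥0∞) [Fact (1 ≤ p)], 1 < p → p ≠ ∞ → p ≠ 2 →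
      ∀ (Ω : Type u) [MeasurableSpace Ω] (μ : Measure Ω),
        RealIndex p μ ∧ RealRadius p μ ∧ ComplexIndex p μ) ∧
    Asymptotics.{u} := by
  refine ⟨?_, ?_⟩
  · intro p _ h1 h2 h3 Ω _ μ
    refine ⟨⟨fun h => dim_two h1 h2 h3 h, fun h => ⟨?_, ?_⟩⟩, ⟨fun T => Mp_absRadius_le h1 h2 h3 T, fun h => ?_⟩, ?_⟩
    · have : Nontrivial (Lp ℝ p μ) := nontrivial_of_rank (𝕜 := ℝ) (le_trans (by norm_num) h)
      exact real_lower h1 h2 h3
    · obtain ⟨A, a1, a2, a3, a4⟩ := dis_of_rank (𝕜 := ℝ) (p := p) (μ := μ) h2 3 (by exact_mod_cast h)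
      exact real_main h1 h2 h3 (a1 0) (a2 0) (a3 0) (a1 1) (a2 1) (a3 1) (a1 2) (a2 2) (a3 2)
        (a4 0 1 (by decide)) (a4 0 2 (by decide)) (a4 1 2 (by decide))
    · obtain ⟨A, a1, a2, a3, a4⟩ := dis_of_rank (𝕜 := ℝ) (p := p) (μ := μ) h2 2 (by exact_mod_cast h)
      exact absRadius_sharp h1 h2 h3 (a1 0) (a2 0) (a3 0) (a1 1) (a2 1) (a3 1) (a4 0 1 (by decide))
    · intro h
      have : Nontrivial (Lp ℂ p μ) := nontrivial_of_rank (𝕜 := ℂ) h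
      refine ⟨?_, fun R s hR hs => ?_⟩
      · obtain ⟨A, a1, a2, a3, a4⟩ := dis_of_rank (𝕜 := ℂ) (p := p) (μ := μ) h2 2 (by exact_mod_cast h)
        exact complex_main h1 h2 h3 (a1 0) (a2 0) (a3 0) (a1 1) (a2 1) (a3 1) (a4 0 1 (by decide))
      · rw [hs]
        exact complex_exp_lower h1 h2 hR
  · intro ε hε
    obtain ⟨δ, hδ, h⟩ := asym.{u} hε
    obtain ⟨δ', hδ', h'⟩ := R2.real_asym.{u} hε
    have m1 : min δ δ' ≤ δ := min_le_left _ _
    have m2 : min δ δ' ≤ δ' := min_le_right _ _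
    have m3 : 0 < min δ δ' := lt_min hδ hδ'
    have i1 : δ⁻¹ ≤ (min δ δ')⁻¹ := inv_anti₀ m3 m1
    have i2 : δ'⁻¹ ≤ (min δ δ')⁻¹ := inv_anti₀ m3 m2
    refine ⟨min δ δ', m3, fun p _ h1 h2 h3 hc Ω _ μ => ⟨fun hr => ?_, fun hr => ?_⟩⟩
    · refine h p h1 h2 ?_ Ω μ (nontrivial_of_rank (𝕜 := ℂ) hr)
      rcases hc with hc | hc | hc
      · exact Or.inl (by linarith)
      · exact Or.inr (Or.inl (by linarith))
      · exact Or.inr (Or.inr (by linarith))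
    · refine h' p h1 h2 h3 ?_ Ω μ (nontrivial_of_rank (𝕜 := ℝ) hr)
      rcases hc with hc | hc | hc
      · exact Or.inl (by linarith)
      · exact Or.inr (Or.inl (by linarith))
      · exact Or.inr (Or.inr (by linarith))

end Pool.Agent.Results.MP_95d40a_an.Resolution
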